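import Pool.Agent.N65.GP.Defs
set_option autoImplicit false

/-!
# Project GP: the main statement from the linear algebra and the analysis
-/

namespace Pool.Agent.N65.GP

open Complex

/-- closed curves are bounded -/
theorem exists_bd {d : ℕ} (γ : Fin d → Loop) : ∃ R, Bd γ R := by
  have h1 : ∀ f : ℝ → ℂ, Continuous f → (∀ t, f (t + 1) = f t) → ∃ R, ∀ t, ‖f t‖ < R := by
    intro f hf hp
    obtain ⟨R, hR⟩ := (isCompact_Icc (a := (0 : ℝ)) (b := 1)).exists_bound_of_continuousOn hf.continuousOn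
    refine ⟨R + 1, fun t => ?_⟩
    have hper : Function.Periodic f 1 := hp
    obtain ⟨y, hy, hfy⟩ := hper.exists_mem_Ico₀ one_pos t
    rw [hfy]
    have := hR y ⟨hy.1, hy.2.le⟩
    linarith
  choose Rx hRx using fun l => h1 (γ l).x (γ l).hx.continuous (γ l).px
  choose Ry hRy using fun l => h1 (γ l).y (γ l).hy.continuous (γ l).py
  refine ⟨∑ l, (|Rx l| + |Ry l|), fun l t => ?_⟩
  have h2 : |Rx l| + |Ry l| ≤ ∑ l, (|Rx l| + |Ry l|) :=
    Finset.single_le_sum (f := fun l => |Rx l| + |Ry l|) (fun i _ => by positivity) (Finset.mem_univ l)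
  have h3 := hRx l t
  have h4 := hRy l t
  have h5 := le_abs_self (Rx l)
  have h6 := le_abs_self (Ry l)
  have h7 := abs_nonneg (Rx l)
  have h8 := abs_nonneg (Ry l)
  constructor <;> linarith

/-- the type of the pairs `(m, c)` -/
def Ix {k : Subfield ℂ} (C : Crv k) (R : ℝ) : Type :=
  {s : ℂ × ℂ // s.1 ∈ k ∧ s.2 ∈ k ∧ R < ‖s.1‖ ∧ R < ‖s.2‖ ∧ C.F s.2 s.1 ≠ 0}

/-- the type of the residues -/
abbrev Px {k : Subfield ℂ} (C : Crv k) : Type := (ℂ × Fin C.n) ⊕ ((ℂ × Fin C.n) ⊕ Unit)

variable {k : Subfield ℂ} {C : Crv k} {R : ℝ}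

/-- the residues of a symbol -/
noncomputable def vec (b : Br C R) (s : Ix C R) : Px C →₀ ℝ :=
  ∑ i, Finsupp.single (Sum.inl (s.1.2, i)) (Real.log ‖b.yb i s.1.2 - s.1.1‖) +
    ∑ i, Finsupp.single (Sum.inr (Sum.inl (s.1.1, i))) (Real.log ‖b.xb i s.1.1 - s.1.2‖) +
    Finsupp.single (Sum.inr (Sum.inr ())) 1

open Classical in
theorem vec_inl (b : Br C R) (s : Ix C R) (c : ℂ) (i : Fin C.n) :
    vec b s (Sum.inl (c, i)) = if s.1.2 = c then Real.log ‖b.yb i c - s.1.1‖ else 0 := by
  unfold vec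
  rw [Finsupp.add_apply, Finsupp.add_apply, Finsupp.finsetSum_apply, Finsupp.finsetSum_apply,
    Finsupp.single_eq_of_ne (by simp), add_zero]
  have h2 : ∑ j, (Finsupp.single (Sum.inr (Sum.inl (s.1.1, j)) : Px C)
      (Real.log ‖b.xb j s.1.1 - s.1.2‖)) (Sum.inl (c, i)) = 0 :=
    Finset.sum_eq_zero fun j _ => Finsupp.single_eq_of_ne (by simp)
  rw [h2, add_zero]
  by_cases h : s.1.2 = c
  · rw [if_pos h, Finset.sum_eq_single i]
    · rw [h, Finsupp.single_eq_same]
    · intro j _ hj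
      exact Finsupp.single_eq_of_ne (by simp [Ne.symm hj])
    · intro h3
      exact absurd (Finset.mem_univ i) h3
  · rw [if_neg h]
    refine Finset.sum_eq_zero fun j _ => Finsupp.single_eq_of_ne ?_
    intro h3
    simp only [Sum.inl.injEq, Prod.mk.injEq] at h3
    exact h h3.1.symm

open Classical in
theorem vec_inr (b : Br C R) (s : Ix C R) (m : ℂ) (i : Fin C.n) :
    vec b s (Sum.inr (Sum.inl (m, i))) = if s.1.1 = m then Real.log ‖b.xb i m - s.1.2‖ else 0 := by
  unfold vec
  rw [Finsupp.add_apply, Finsupp.add_apply, Finsupp.finsetSum_apply, Finsupp.finsetSum_apply,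
    Finsupp.single_eq_of_ne (by simp), add_zero]
  have h2 : ∑ j, (Finsupp.single (Sum.inl (s.1.2, j) : Px C)
      (Real.log ‖b.yb j s.1.2 - s.1.1‖)) (Sum.inr (Sum.inl (m, i))) = 0 :=
    Finset.sum_eq_zero fun j _ => Finsupp.single_eq_of_ne (by simp)
  rw [h2, zero_add]
  by_cases h : s.1.1 = m
  · rw [if_pos h, Finset.sum_eq_single i]
    · rw [h, Finsupp.single_eq_same]
    · intro j _ hj
      exact Finsupp.single_eq_of_ne (by simp [Ne.symm hj])
    · intro h3
      exact absurd (Finset.mem_univ i) h3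
  · rw [if_neg h]
    refine Finset.sum_eq_zero fun j _ => Finsupp.single_eq_of_ne ?_
    intro h3
    simp only [Sum.inr.injEq, Sum.inl.injEq, Prod.mk.injEq] at h3
    exact h h3.1.symm

theorem vec_unit (b : Br C R) (s : Ix C R) : vec b s (Sum.inr (Sum.inr ())) = 1 := by
  unfold vec
  rw [Finsupp.add_apply, Finsupp.add_apply, Finsupp.finsetSum_apply, Finsupp.finsetSum_apply,
    Finsupp.single_eq_same, Finset.sum_eq_zero, Finset.sum_eq_zero, zero_add, zero_add]
  · exact fun j _ => Finsupp.single_eq_of_ne (by simp)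
  · exact fun j _ => Finsupp.single_eq_of_ne (by simp)

theorem main (hB : S_B) (hMO : S_MO) (hA : S_A) (hCO : S_CO) (hCT : S_CT) : Main := by
  classical
  intro k hk C d γ hγ hind r
  obtain ⟨R₀, hb₀⟩ := hB k C
  obtain ⟨R₁, hR₁⟩ := exists_bd γ
  obtain ⟨b⟩ := hMO k C R₀ (max R₀ R₁) (le_max_left _ _) hb₀
  set R := max R₀ R₁ with hR
  have hBd : Bd γ R := fun l t =>
    ⟨(hR₁ l t).1.trans_le (le_max_right _ _), (hR₁ l t).2.trans_le (le_max_right _ _)⟩
  set A : (Ix C R →₀ ℝ) →ₗ[ℝ] (Px C →₀ ℝ) := Finsupp.linearCombination ℝ (vec b) with hAdef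
  set f : Fin d → (Ix C R →₀ ℝ) →ₗ[ℝ] ℝ := fun l =>
    Finsupp.linearCombination ℝ (fun s : Ix C R => (γ l).reg s.1.1 s.1.2) with hf
  obtain ⟨μ₀, hμA, hμf⟩ := hA (Ix C R) (Px C) d A f (by
    rintro s hs ⟨φ, hφ⟩
    obtain ⟨G, hG, hne⟩ := hind s hs
    apply hne
    have hRel : Rel b (fun m c => ∑ l, s l * (γ l).reg m c) (fun c i => φ (Sum.inl (c, i)))
        (fun m i => φ (Sum.inr (Sum.inl (m, i)))) (φ (Sum.inr (Sum.inr ()))) := by
      intro m hm c hc hmR hcR hF
      have h1 := hφ ⟨(m, c), hm, hc, hmR, hcR, hF⟩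
      have h2 : ∀ v : Px C →₀ ℝ, (v.sum fun p w => w * φ p) = Finsupp.linearCombination ℝ φ v := by
        intro v
        rw [Finsupp.linearCombination_apply]
        simp only [smul_eq_mul]
      rw [h2, hAdef, Finsupp.linearCombination_single, one_smul] at h1
      simp only [hf, Finsupp.linearCombination_single, one_smul] at h1
      refine h1.trans ?_
      unfold vec
      rw [map_add, map_add, map_sum, map_sum]
      simp only [Finsupp.linearCombination_single, smul_eq_mul, one_mul]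
      simp only [mul_comm]
    obtain ⟨β, β', h1, h2⟩ := hCO k hk C R b d γ s _ _ _ hBd hRel
    have hRel2 : Rel b (fun m c => ∑ l, s l * (γ l).reg m c) (fun _ => β) (fun _ => β')
        (φ (Sum.inr (Sum.inr ()))) := by
      intro m hm c hc hmR hcR hF
      have h3 := hRel m hm c hc hmR hcR hF
      simp only at h3 ⊢
      have h4 := h1 c hc hcR
      have h5 := h2 m hm hmR
      rw [h3]
      congr 2
      · refine Finset.sum_congr rfl fun i _ => ?_
        rw [← congrFun h4 i]
      · refine Finset.sum_congr rfl fun i _ => ?_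
        rw [← congrFun h5 i]
    exact hCT k hk C R b d γ s β β' _ hBd hRel2 G hG) r
  set e : Ix C R ↪ ℂ × ℂ := ⟨Subtype.val, Subtype.val_injective⟩ with he
  have key : ∀ p : Px C, (μ₀.sum fun s w => w * vec b s p) = 0 := by
    intro p
    have h1 := DFunLike.congr_fun hμA p
    rw [hAdef, Finsupp.linearCombination_apply, Finsupp.sum_apply, Finsupp.zero_apply] at h1
    simpa using h1
  refine ⟨μ₀.embDomain e, ?_, ?_, ?_, ?_, ?_⟩
  · intro s hs
    rw [Finsupp.support_embDomain, Finset.mem_map] at hs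
    obtain ⟨i, _, rfl⟩ := hs
    obtain ⟨hm, hc, hmR, hcR, hF⟩ := i.2
    refine ⟨hm, hc, hF, ?_, ?_, ?_⟩
    · intro x hx
      obtain ⟨j, hj⟩ := (b.rootX _ hmR x).1 hx
      rw [hj]
      exact b.Fx_ne j _ hmR
    · intro y hy
      obtain ⟨j, hj⟩ := (b.rootY _ hcR y).1 hy
      rw [hj]
      exact b.Fy_ne j _ hcR
    · intro l t
      constructor
      · intro h
        have h1 := (hBd l t).2
        rw [h] at h1
        exact absurd hmR (not_lt.2 h1.le)
      · intro h
        have h1 := (hBd l t).1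
        rw [h] at h1
        exact absurd hcR (not_lt.2 h1.le)
  · rw [Finsupp.sum_embDomain]
    have h1 := key (Sum.inr (Sum.inr ()))
    simpa only [vec_unit, mul_one] using h1
  · intro c y hy
    rw [Finsupp.sum_embDomain]
    by_cases hcR : R < ‖c‖
    · obtain ⟨i, rfl⟩ := (b.rootY c hcR y).1 hy
      have h1 := key (Sum.inl (c, i))
      simp only [vec_inl, mul_ite, mul_zero] at h1
      exact h1
    · refine Finset.sum_eq_zero fun s _ => if_neg ?_
      intro h
      exact hcR (h ▸ s.2.2.2.2.1)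
  · intro m x hx
    rw [Finsupp.sum_embDomain]
    by_cases hmR : R < ‖m‖
    · obtain ⟨i, rfl⟩ := (b.rootX m hmR x).1 hx
      have h1 := key (Sum.inr (Sum.inl (m, i)))
      simp only [vec_inr, mul_ite, mul_zero] at h1
      exact h1
    · refine Finset.sum_eq_zero fun s _ => if_neg ?_
      intro h
      exact hmR (h ▸ s.2.2.2.1)
  · intro l
    rw [Finsupp.sum_embDomain, ← hμf l, hf]
    simp only [Finsupp.linearCombination_apply, smul_eq_mul]
    rfl

end Pool.Agent.N65.GP
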