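import Mathlib
set_option autoImplicit false

/-!
# Real regulators of `K_2` of the function field of a curve: definitions

`C` is the plane curve `∏ (y - α_i x) + (terms of degree < n) = 0`, which meets the line at infinity in
`n` different points, none of them on the coordinate axes. The symbols `{y - m, x - c}`.
-/

namespace Pool.Agent.N65.GP

open Complex Polynomial

/-- A plane curve of degree `n` over the field `k ⊆ ℂ`, which meets the line at infinity in `n` different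
points, none of them on the coordinate axes. -/
structure Crv (k : Subfield ℂ) where
  /-- the degree -/
  n : ℕ
  /-- the directions at infinity -/
  α : Fin n → ℂ
  /-- the coefficients of the terms of smaller degree -/
  a : ℕ → ℕ → ℂ
  inj : Function.Injective α
  ne : ∀ i, α i ≠ 0
  coeff : ∀ j, (∏ i, (X - C (α i) : ℂ[X])).coeff j ∈ k
  mem : ∀ i j, a i j ∈ k

/-- the polynomial `∏ (y - α_i x) + ∑_{i + j < n} a_ij x^i y^j` -/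
noncomputable def Fp (n : ℕ) (α : Fin n → ℂ) (a : ℕ → ℕ → ℂ) (x y : ℂ) : ℂ :=
  ∏ i, (y - α i * x) + ∑ i ∈ Finset.range n, ∑ j ∈ Finset.range (n - i), a i j * x ^ i * y ^ j

variable {k : Subfield ℂ}

namespace Crv

/-- the equation of the curve -/
noncomputable def F (C : Crv k) (x y : ℂ) : ℂ := Fp C.n C.α C.a x y

/-- the partial derivatives -/
noncomputable def Fx (C : Crv k) (x y : ℂ) : ℂ := deriv (fun t => C.F t y) x

@[inherit_doc Fx]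
noncomputable def Fy (C : Crv k) (x y : ℂ) : ℂ := deriv (fun t => C.F x t) y

end Crv

/-- closed curves in `ℂ²` of class `C¹` -/
structure Loop where
  /-- first coordinate -/
  x : ℝ → ℂ
  /-- second coordinate -/
  y : ℝ → ℂ
  hx : ContDiff ℝ 1 x
  hy : ContDiff ℝ 1 y
  px : ∀ t, x (t + 1) = x t
  py : ∀ t, y (t + 1) = y t

namespace Loop

/-- the loop is contained in the smooth part of the affine curve -/
def On (γ : Loop) (C : Crv k) : Prop :=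
  ∀ t, C.F (γ.x t) (γ.y t) = 0 ∧ (C.Fx (γ.x t) (γ.y t) ≠ 0 ∨ C.Fy (γ.x t) (γ.y t) ≠ 0)

/-- the integral `∫_γ g(x, y) dx` -/
noncomputable def int (γ : Loop) (g : ℂ → ℂ → ℂ) : ℂ :=
  ∫ t in (0 : ℝ)..1, g (γ.x t) (γ.y t) * deriv γ.x t

/-- the regulator `∫_γ log |y - m| d arg (x - c) - log |x - c| d arg (y - m)` of `{y - m, x - c}` -/
noncomputable def reg (γ : Loop) (m c : ℂ) : ℝ :=
  ∫ t in (0 : ℝ)..1, (Real.log ‖γ.y t - m‖ * (deriv γ.x t / (γ.x t - c)).im -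
    Real.log ‖γ.x t - c‖ * (deriv γ.y t / (γ.y t - m)).im)

end Loop

/-- the form `G(x, y) dx` has no residues at the points at infinity: its integrals over all loops of the
curve in a neighbourhood of infinity vanish -/
def SecondKind (C : Crv k) (G : Polynomial ℂ[X]) : Prop :=
  ∃ R : ℝ, ∀ δ : Loop, δ.On C → (∀ t, R < ‖δ.x t‖) → δ.int (fun x y => G.evalEval x y) = 0

/-- The kernel `log (1 - y / m) / (x - c)` -/
noncomputable def ker (m c x y : ℂ) : ℂ := Complex.log (1 - y / m) / (x - c)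

/-- The branches of the curve in the neighbourhood `|x| > R` (or `|y| > R`) of infinity -/
structure Br (C : Crv k) (R : ℝ) where
  /-- the branches `y = yb_i (x)` -/
  yb : Fin C.n → ℂ → ℂ
  /-- the inverse functions -/
  xb : Fin C.n → ℂ → ℂ
  pos : 0 < R
  rootY : ∀ c, R < ‖c‖ → ∀ y, C.F c y = 0 ↔ ∃ i, y = yb i c
  rootX : ∀ m, R < ‖m‖ → ∀ x, C.F x m = 0 ↔ ∃ i, x = xb i m
  injY : ∀ c, R < ‖c‖ → Function.Injective fun i => yb i c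
  injX : ∀ m, R < ‖m‖ → Function.Injective fun i => xb i m
  diffY : ∀ i, DifferentiableOn ℂ (yb i) {c | R < ‖c‖}
  diffX : ∀ i, DifferentiableOn ℂ (xb i) {m | R < ‖m‖}
  derivY : ∀ i c, R < ‖c‖ → deriv (yb i) c ≠ 0
  derivX : ∀ i m, R < ‖m‖ → deriv (xb i) m ≠ 0
  Fy_ne : ∀ i c, R < ‖c‖ → C.Fy c (yb i c) ≠ 0
  Fx_ne : ∀ i m, R < ‖m‖ → C.Fx (xb i m) m ≠ 0
  limY : ∀ i, Filter.Tendsto (fun c => yb i c / c) (Bornology.cobounded ℂ) (nhds (C.α i))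
  limX : ∀ i, Filter.Tendsto (fun m => xb i m / m) (Bornology.cobounded ℂ) (nhds (C.α i)⁻¹)
  invX : ∀ i c, R < ‖c‖ → R < ‖yb i c‖ → xb i (yb i c) = c
  invY : ∀ i m, R < ‖m‖ → R < ‖xb i m‖ → yb i (xb i m) = m

/-- the loops at infinity: the circle of radius `ρ` on the branch with the number `i` -/
def IsCircle {C : Crv k} {R : ℝ} (b : Br C R) (ρ : ℝ) (δ : Fin C.n → Loop) : Prop :=
  ∀ i, (∀ t : ℝ, (δ i).x t = ρ * Complex.exp (2 * Real.pi * t * Complex.I)) ∧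
    ∀ t : ℝ, (δ i).y t = b.yb i ((δ i).x t)

/-- all coordinates of all points of the loops are less than `R` -/
def Bd {ι : Type} (γ : ι → Loop) (R : ℝ) : Prop := ∀ l t, ‖(γ l).x t‖ < R ∧ ‖(γ l).y t‖ < R

/-- the relation between regulators and residues -/
def Rel {C : Crv k} {R : ℝ} (b : Br C R) (ρ : ℂ → ℂ → ℝ) (lam lam' : ℂ → Fin C.n → ℝ) (τ : ℝ) : Prop :=
  ∀ m ∈ k, ∀ c ∈ k, R < ‖m‖ → R < ‖c‖ → C.F c m ≠ 0 →
    ρ m c = ∑ i, lam c i * Real.log ‖b.yb i c - m‖ + ∑ i, lam' m i * Real.log ‖b.xb i m - c‖ + τ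

/-- `B1`: the roots of the polynomial `F(c, y)` for large `c` -/
def S_B1 : Prop := ∀ (n : ℕ) (α : Fin n → ℂ) (a : ℕ → ℕ → ℂ), Function.Injective α →
  ∃ (R : ℝ) (Y : Fin n → ℂ → ℂ), 0 < R ∧
    (∀ c, R < ‖c‖ → ∀ y, Fp n α a c y = 0 ↔ ∃ i, y = Y i c) ∧
    (∀ c, R < ‖c‖ → Function.Injective fun i => Y i c) ∧
    (∀ i, DifferentiableOn ℂ (Y i) {c | R < ‖c‖}) ∧
    (∀ i c, R < ‖c‖ → deriv (fun t => Fp n α a c t) (Y i c) ≠ 0) ∧
    ∀ i, Filter.Tendsto (fun c => Y i c / c) (Bornology.cobounded ℂ) (nhds (α i))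

/-- `B`: the branches exist -/
def S_B : Prop := ∀ (k : Subfield ℂ) (C : Crv k), ∃ R : ℝ, Nonempty (Br C R)

/-- `MO`: the radius can be increased -/
def S_MO : Prop := ∀ (k : Subfield ℂ) (C : Crv k) (R R' : ℝ), R ≤ R' → Nonempty (Br C R) → Nonempty (Br C R')

/-- `H`: the regulator for large `m`, `c` -/
def S_H : Prop := ∀ (γ : Loop) (m c : ℂ), (∀ t, ‖γ.y t‖ < ‖m‖) → (∀ t, ‖γ.x t‖ < ‖c‖) →
  γ.reg m c = (γ.int (ker m c)).im

/-- `HD`: the integrals are holomorphic in `c` and in `m`, and continuous -/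
def S_HD : Prop := ∀ (γ : Loop) (R : ℝ), (∀ t, ‖γ.x t‖ < R ∧ ‖γ.y t‖ < R) →
  (∀ m, R < ‖m‖ → DifferentiableOn ℂ (fun c => γ.int (ker m c)) {c | R < ‖c‖}) ∧
  (∀ c, R < ‖c‖ → DifferentiableOn ℂ (fun m => γ.int (ker m c)) {m | R < ‖m‖}) ∧
  ContinuousOn (fun z : ℂ × ℂ => γ.int (ker z.1 z.2)) {z | R < ‖z.1‖ ∧ R < ‖z.2‖}

/-- `A`: linear algebra. A family of functionals `f_l` is jointly surjective on the kernel of a linear map
into a direct sum, unless some nontrivial combination of them is a combination of the coordinates. -/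
def S_A : Prop := ∀ (I : Type) (P : Type) (d : ℕ) (A : (I →₀ ℝ) →ₗ[ℝ] (P →₀ ℝ))
  (f : Fin d → (I →₀ ℝ) →ₗ[ℝ] ℝ),
  (∀ s : Fin d → ℝ, s ≠ 0 → ¬ ∃ φ : P → ℝ, ∀ i : I,
    ∑ l, s l * f l (Finsupp.single i 1) = (A (Finsupp.single i 1)).sum fun p w => w * φ p) →
  ∀ r : Fin d → ℝ, ∃ μ : I →₀ ℝ, A μ = 0 ∧ ∀ l, f l μ = r l

/-- `LI`: independence of the functions `log |y_i - u|`, `Re (b_i / (y_i - u))`, `Im (b_i / (y_i - u))` of `u` -/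
def S_LI : Prop := ∀ (n : ℕ) (y b : Fin n → ℂ) (R : ℝ) (D : Set ℂ), Dense D → Function.Injective y →
  (∀ i, b i ≠ 0) → ∃ u : Fin n × Fin 3 → ℂ, (∀ j, u j ∈ D ∧ R < ‖u j‖ ∧ ∀ i, y i ≠ u j) ∧
    (Matrix.of fun j p : Fin n × Fin 3 => (![Real.log ‖y p.1 - u j‖, (b p.1 / (y p.1 - u j)).re,
      (b p.1 / (y p.1 - u j)).im] : Fin 3 → ℝ) p.2).det ≠ 0

/-- `LC`: coefficients of relations between harmonic functions are constant -/
def S_LC : Prop := ∀ (n : ℕ) (c₀ : ℂ) (ε : ℝ) (D : Set ℂ) (Y : Fin n → ℂ → ℂ)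
  (P : Fin n × Fin 3 → ℂ → ℂ) (u : Fin n × Fin 3 → ℂ) (lam : ℂ → Fin n → ℝ), 0 < ε → Dense D →
  (∀ i, DifferentiableOn ℂ (Y i) (Metric.ball c₀ ε)) →
  (∀ j, DifferentiableOn ℂ (P j) (Metric.ball c₀ ε)) →
  (∀ i j, Y i c₀ ≠ u j) →
  (∀ c ∈ D, c ∈ Metric.ball c₀ ε → ∀ j, (P j c).re = ∑ i, lam c i * Real.log ‖Y i c - u j‖) →
  (Matrix.of fun j p : Fin n × Fin 3 => (![Real.log ‖Y p.1 c₀ - u j‖,
      (deriv (Y p.1) c₀ / (Y p.1 c₀ - u j)).re,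
      (deriv (Y p.1) c₀ / (Y p.1 c₀ - u j)).im] : Fin 3 → ℝ) p.2).det ≠ 0 →
  ∃ ε' : ℝ, 0 < ε' ∧ ∀ c ∈ D, ∀ c' ∈ D, c ∈ Metric.ball c₀ ε' → c' ∈ Metric.ball c₀ ε' → lam c = lam c'

/-- `CC`: functions on a dense subset of `|c| > R` which are locally constant in the strong sense are
constant -/
def S_CC : Prop := ∀ (E : Type) (R : ℝ) (D : Set ℂ) (lam : ℂ → E), Dense D → 0 < R →
  (∀ c₀ : ℂ, R < ‖c₀‖ → ∃ ε : ℝ, 0 < ε ∧ ∀ c ∈ D, ∀ c' ∈ D, c ∈ Metric.ball c₀ ε →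
    c' ∈ Metric.ball c₀ ε → lam c = lam c') →
  ∃ β : E, ∀ c ∈ D, R < ‖c‖ → lam c = β

/-- `CO`: the coefficients in a relation are constant -/
def S_CO : Prop := ∀ (k : Subfield ℂ), Dense (k : Set ℂ) → ∀ (C : Crv k) (R : ℝ) (b : Br C R) (d : ℕ)
  (γ : Fin d → Loop) (s : Fin d → ℝ) (lam lam' : ℂ → Fin C.n → ℝ) (τ : ℝ), Bd γ R →
  Rel b (fun m c => ∑ l, s l * (γ l).reg m c) lam lam' τ →
  ∃ β β' : Fin C.n → ℝ, (∀ c ∈ k, R < ‖c‖ → lam c = β) ∧ ∀ m ∈ k, R < ‖m‖ → lam' m = β'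

/-- `SM`: the singularities cancel -/
def S_SM : Prop := ∀ (k : Subfield ℂ) (C : Crv k) (R : ℝ) (b : Br C R) (ρ : ℂ → ℂ → ℝ)
  (β β' : Fin C.n → ℝ) (τ : ℝ), Dense (k : Set ℂ) →
  ContinuousOn (fun z : ℂ × ℂ => ρ z.1 z.2) {z | R < ‖z.1‖ ∧ R < ‖z.2‖} →
  Rel b ρ (fun _ => β) (fun _ => β') τ →
  (∀ i, β' i = - β i) ∧ ∀ m c, R < ‖m‖ → R < ‖c‖ → C.F c m ≠ 0 →
    ρ m c = ∑ i, β i * (Real.log ‖b.yb i c - m‖ - Real.log ‖b.xb i m - c‖) + τ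

/-- `CIR`: the circles exist -/
def S_CIR : Prop := ∀ (k : Subfield ℂ) (C : Crv k) (R : ℝ) (b : Br C R) (ρ : ℝ), R < ρ →
  ∃ δ : Fin C.n → Loop, IsCircle b ρ δ ∧ ∀ i, (δ i).On C

/-- `JI`: a formula of Jensen type -/
def S_JI : Prop := ∀ (k : Subfield ℂ) (C : Crv k) (R : ℝ) (b : Br C R) (ρ : ℝ) (δ : Fin C.n → Loop),
  R < ρ → IsCircle b ρ δ → ∃ R' : ℝ, ∀ m c : ℂ, R' < ‖m‖ → R' < ‖c‖ → C.F c m ≠ 0 → ∀ i,
    Real.log ‖b.yb i c - m‖ - Real.log ‖b.xb i m - c‖ =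
      Real.log ‖C.α i‖ - (1 / (2 * Real.pi)) * ((δ i).int (ker m c)).im

/-- `IM`: a combination of integrals with constant imaginary part vanishes -/
def S_IM : Prop := ∀ (ι : Type) [Fintype ι] (γ : ι → Loop) (w : ι → ℝ) (m : ℂ) (R κ : ℝ) (Z : Set ℂ),
  Z.Finite → R < ‖m‖ → Bd γ R →
  (∀ c, R < ‖c‖ → c ∉ Z → (∑ l, (w l : ℂ) * (γ l).int (ker m c)).im = κ) →
  ∀ c, R < ‖c‖ → ∑ l, (w l : ℂ) * (γ l).int (ker m c) = 0

/-- `PS`: from the kernels to polynomials -/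
def S_PS : Prop := ∀ (ι : Type) [Fintype ι] (γ : ι → Loop) (w : ι → ℝ) (R : ℝ), Bd γ R →
  (∀ m c : ℂ, R < ‖m‖ → R < ‖c‖ → ∑ l, (w l : ℂ) * (γ l).int (ker m c) = 0) →
  ∀ G : Polynomial ℂ[X], ∑ l, (w l : ℂ) * (γ l).int (fun x y => G.evalEval x y) = 0

/-- `CT`: conclusion for relations with constant coefficients -/
def S_CT : Prop := ∀ (k : Subfield ℂ), Dense (k : Set ℂ) → ∀ (C : Crv k) (R : ℝ) (b : Br C R) (d : ℕ)
  (γ : Fin d → Loop) (s : Fin d → ℝ) (β β' : Fin C.n → ℝ) (τ : ℝ), Bd γ R →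
  Rel b (fun m c => ∑ l, s l * (γ l).reg m c) (fun _ => β) (fun _ => β') τ →
  ∀ G : Polynomial ℂ[X], SecondKind C G → ∑ l, (s l : ℂ) * (γ l).int (fun x y => G.evalEval x y) = 0

/-- The main statement. -/
def Main : Prop := ∀ (k : Subfield ℂ), Dense (k : Set ℂ) → ∀ (C : Crv k) (d : ℕ) (γ : Fin d → Loop),
  (∀ l, (γ l).On C) →
  (∀ s : Fin d → ℝ, s ≠ 0 → ∃ G : Polynomial ℂ[X], SecondKind C G ∧
    ∑ l, (s l : ℂ) * (γ l).int (fun x y => G.evalEval x y) ≠ 0) →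
  ∀ r : Fin d → ℝ, ∃ μ : ℂ × ℂ →₀ ℝ,
    (∀ s ∈ μ.support, s.1 ∈ k ∧ s.2 ∈ k ∧ C.F s.2 s.1 ≠ 0 ∧ (∀ x, C.F x s.1 = 0 → C.Fx x s.1 ≠ 0) ∧
      (∀ y, C.F s.2 y = 0 → C.Fy s.2 y ≠ 0) ∧ ∀ l t, (γ l).y t ≠ s.1 ∧ (γ l).x t ≠ s.2) ∧
    (μ.sum fun _ w => w) = 0 ∧
    (∀ c y, C.F c y = 0 → (μ.sum fun s w => if s.2 = c then w * Real.log ‖y - s.1‖ else 0) = 0) ∧
    (∀ m x, C.F x m = 0 → (μ.sum fun s w => if s.1 = m then w * Real.log ‖x - s.2‖ else 0) = 0) ∧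
    ∀ l, (μ.sum fun s w => w * (γ l).reg s.1 s.2) = r l

end Pool.Agent.N65.GP
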