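import Pool.Agent.N65.GP.Defs
set_option autoImplicit false

/-!
# Project GP, second part: density of the regulator for open curves
-/

namespace Pool.Agent.N65.GP

open Complex Polynomial

variable {k : Subfield ℂ}

/-- the polynomial `∏ (Y - α_i X) + ∑_{i + j < n} a_ij X^i Y^j` in `ℂ[X][Y]` -/
noncomputable def Crv.poly (C : Crv k) : Polynomial ℂ[X] :=
  ∏ i, (X - Polynomial.C (Polynomial.C (C.α i) * X)) +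
    ∑ i ∈ Finset.range C.n, ∑ j ∈ Finset.range (C.n - i),
      Polynomial.C (Polynomial.C (C.a i j) * X ^ i) * X ^ j

/-- the loops are linearly independent over `ℝ` in the homology of the compact curve: each nontrivial real
combination has a nonzero period for some form `G(x, y) dx` without residues at infinity -/
def Ind (C : Crv k) {d : ℕ} (γ : Fin d → Loop) : Prop :=
  ∀ s : Fin d → ℝ, s ≠ 0 → ∃ G : Polynomial ℂ[X], SecondKind C G ∧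
    ∑ l, (s l : ℂ) * (γ l).int (fun x y => G.evalEval x y) ≠ 0

/-- the relation between regulators and residues for `m ∈ M`, `c ∈ D` -/
def RelOn {C : Crv k} {R : ℝ} (b : Br C R) {d : ℕ} (γ : Fin d → Loop) (M D : Set ℂ) (s : Fin d → ℝ)
    (lam lam' : ℂ → Fin C.n → ℝ) (τ : ℝ) : Prop :=
  ∀ m ∈ M, ∀ c ∈ D, ∑ l, s l * (γ l).reg m c =
    ∑ i, lam c i * Real.log ‖b.yb i c - m‖ + ∑ i, lam' m i * Real.log ‖b.xb i m - c‖ + τ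

/-- `SG`: continuation in `c` for one `m` -/
def S_SG : Prop := ∀ (k : Subfield ℂ) (C : Crv k) (R : ℝ) (b : Br C R) (m : ℂ), R < ‖m‖ →
  (∀ i, R < ‖b.xb i m‖) → ∀ H : ℂ → ℂ, DifferentiableOn ℂ H {c | R < ‖c‖} →
  ∀ (c₀ : ℂ) (ε : ℝ) (β v : Fin C.n → ℝ) (τ : ℝ), 0 < ε →
  (∀ c ∈ Metric.ball c₀ ε, R < ‖c‖ ∧ C.F c m ≠ 0 ∧
    (H c).im = ∑ i, β i * Real.log ‖b.yb i c - m‖ + ∑ i, v i * Real.log ‖b.xb i m - c‖ + τ) →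
  (∀ i, v i = - β i) ∧ ∀ c, R < ‖c‖ → C.F c m ≠ 0 →
    (H c).im = ∑ i, β i * (Real.log ‖b.yb i c - m‖ - Real.log ‖b.xb i m - c‖) + τ

/-- `IRR`: on an irreducible curve the residues at infinity of the forms `G dx` satisfy only one relation -/
def S_IRR : Prop := ∀ (k : Subfield ℂ) (C : Crv k) (R : ℝ) (b : Br C R) (ρ : ℝ) (δ : Fin C.n → Loop),
  R < ρ → IsCircle b ρ δ → Irreducible C.poly → ∀ β : Fin C.n → ℝ,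
  (∀ G : Polynomial ℂ[X], ∑ i, (β i : ℂ) * (δ i).int (fun x y => G.evalEval x y) = 0) →
  ∀ i j, β i = β j

/-- `RAD`: the residues of forms of the second kind -/
def S_RAD : Prop := ∀ (k : Subfield ℂ) (C : Crv k) (R : ℝ) (b : Br C R) (ρ : ℝ) (δ : Fin C.n → Loop),
  R < ρ → IsCircle b ρ δ → ∀ G : Polynomial ℂ[X], SecondKind C G →
  ∀ i, (δ i).int (fun x y => G.evalEval x y) = 0

/-- `FI`: intersections of subspaces of finite dimensional spaces -/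
def S_FI : Prop := ∀ (V : Type) [AddCommGroup V] [Module ℝ V] [FiniteDimensional ℝ V] (I : Type)
  (N : I → Submodule ℝ V), ∃ J : Finset I, ⨅ i ∈ J, N i = ⨅ i, N i

/-- `ST`: from a relation near one point to the kernels -/
def S_ST : Prop := ∀ (k : Subfield ℂ), Dense (k : Set ℂ) → ∀ (C : Crv k) (R : ℝ) (b : Br C R) (ρ : ℝ)
  (δ : Fin C.n → Loop), R < ρ → IsCircle b ρ δ → ∃ R' : ℝ, R ≤ R' ∧ ∀ (d : ℕ) (γ : Fin d → Loop), Bd γ R →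
  ∀ m, R' < ‖m‖ → ∀ (c₀ : ℂ) (ε : ℝ), 0 < ε → (∀ c ∈ Metric.ball c₀ ε, R < ‖c‖ ∧ C.F c m ≠ 0) →
  ∀ (s : Fin d → ℝ) (β v : Fin C.n → ℝ) (τ : ℝ),
  (∀ c ∈ k, c ∈ Metric.ball c₀ ε → ∑ l, s l * (γ l).reg m c =
    ∑ i, β i * Real.log ‖b.yb i c - m‖ + ∑ i, v i * Real.log ‖b.xb i m - c‖ + τ) →
  (∀ i, v i = - β i) ∧ ∀ c, R' < ‖c‖ → ∑ l, (s l : ℂ) * (γ l).int (ker m c) +
    ∑ i, ((β i / (2 * Real.pi) : ℝ) : ℂ) * (δ i).int (ker m c) = 0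

/-- `NN`: the kernels determine everything -/
def S_NN : Prop := ∀ (k : Subfield ℂ), Dense (k : Set ℂ) → ∀ (C : Crv k) (R : ℝ) (b : Br C R) (ρ : ℝ)
  (δ : Fin C.n → Loop), R < ρ → IsCircle b ρ δ → Irreducible C.poly → ∀ (d : ℕ) (γ : Fin d → Loop),
  Bd γ R → Ind C γ → ∀ (R' : ℝ) (Z : Set ℂ), Z.Finite → ∀ (s : Fin d → ℝ) (β : Fin C.n → ℝ),
  (∀ m ∈ k, m ∉ Z → R' < ‖m‖ → ∀ c, R' < ‖c‖ → ∑ l, (s l : ℂ) * (γ l).int (ker m c) +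
    ∑ i, ((β i / (2 * Real.pi) : ℝ) : ℂ) * (δ i).int (ker m c) = 0) →
  s = 0 ∧ ∀ i j, β i = β j

/-- `PF`: the polynomials `F(c, ·)` and `F(·, m)` -/
def S_PF : Prop := ∀ (k : Subfield ℂ) (C : Crv k),
  (∀ c, (∀ y, C.F c y = 0 → C.Fy c y ≠ 0) →
    ∃ Y : Fin C.n → ℂ, Function.Injective Y ∧ ∀ y, C.F c y = 0 ↔ ∃ i, y = Y i) ∧
  (∀ (c : ℂ) (Y : Fin C.n → ℂ), Function.Injective Y → (∀ y, C.F c y = 0 ↔ ∃ i, y = Y i) →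
    ∀ m, C.F c m = ∏ i, (m - Y i)) ∧
  (∀ (m : ℂ) (X : Fin C.n → ℂ), Function.Injective X → (∀ x, C.F x m = 0 ↔ ∃ i, x = X i) →
    ∀ c, C.F c m = (∏ i, (- C.α i)) * ∏ i, (c - X i))

/-- `EM`: there is a suitable finite set `M` -/
def S_EM : Prop := ∀ (k : Subfield ℂ), Dense (k : Set ℂ) → ∀ (C : Crv k) (R : ℝ) (b : Br C R),
  Irreducible C.poly → ∀ (d : ℕ) (γ : Fin d → Loop), Bd γ R → Ind C γ →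
  ∃ R₂ : ℝ, R ≤ R₂ ∧ ∀ Z Z₁ M₀ : Finset ℂ, (∀ m ∈ M₀, m ∈ k ∧ R₂ < ‖m‖) →
  ∃ (M : Finset ℂ) (c₀ : ℂ) (ε : ℝ), M₀ ⊆ M ∧ 0 < ε ∧ (∀ m ∈ M, m ∈ k ∧ R < ‖m‖) ∧
    (∀ m ∈ M, m ∉ M₀ → m ∉ Z) ∧
    (∀ c ∈ Metric.ball c₀ ε, R < ‖c‖ ∧ c ∉ Z₁ ∧ (∀ m ∈ M, C.F c m ≠ 0) ∧
      ∀ v : Fin C.n → ℝ, (∀ m ∈ M, ∑ i, v i * Real.log ‖b.yb i c - m‖ = 0) → v = 0) ∧
    ∀ (s : Fin d → ℝ) (lam lam' : ℂ → Fin C.n → ℝ) (τ : ℝ),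
      RelOn b γ M ((k : Set ℂ) ∩ Metric.ball c₀ ε) s lam lam' τ →
      s = 0 ∧ ∃ β : ℝ, τ = - β * ∑ i, Real.log ‖C.α i‖ ∧
        (∀ c ∈ k, c ∈ Metric.ball c₀ ε → ∀ i, lam c i = β) ∧ ∀ m ∈ M, ∀ i, lam' m i = - β

/-- `EC`: there are suitable finite sets `M` and `D` -/
def S_EC : Prop := ∀ (k : Subfield ℂ), Dense (k : Set ℂ) → ∀ (C : Crv k) (R : ℝ) (b : Br C R),
  Irreducible C.poly → ∀ (d : ℕ) (γ : Fin d → Loop), Bd γ R → Ind C γ →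
  ∀ (D₀ : Finset ℂ) (Y : ℂ → Fin C.n → ℂ), (∀ c ∈ D₀, c ∈ k) →
  (∀ c ∈ D₀, Function.Injective (Y c) ∧ ∀ y, C.F c y = 0 ↔ ∃ i, y = Y c i) →
  ∃ M D : Finset ℂ, (∀ m ∈ M, m ∈ k ∧ R < ‖m‖) ∧ (∀ c ∈ D, c ∈ k ∧ R < ‖c‖ ∧ c ∉ D₀) ∧
    (∀ m ∈ M, ∀ c ∈ D, C.F c m ≠ 0) ∧ (∀ m ∈ M, ∀ c ∈ D₀, C.F c m ≠ 0) ∧
    ∀ (s : Fin d → ℝ) (lam lam' : ℂ → Fin C.n → ℝ) (τ : ℝ), RelOn b γ M D s lam lam' τ →
      (∀ m ∈ M, ∀ c ∈ D₀, ∑ l, s l * (γ l).reg m c =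
        ∑ i, lam c i * Real.log ‖Y c i - m‖ + ∑ i, lam' m i * Real.log ‖b.xb i m - c‖ + τ) →
      s = 0 ∧ ∃ β : ℝ, (∀ c ∈ D, ∀ i, lam c i = β) ∧ (∀ c ∈ D₀, ∀ i, lam c i = β) ∧
        ∀ m ∈ M, ∀ i, lam' m i = - β

/-- The main statement for open curves: `D₀` is an arbitrary finite set of nonsingular fibres of `x`. -/
def Main3 : Prop := ∀ (k : Subfield ℂ), Dense (k : Set ℂ) → ∀ (C : Crv k), Irreducible C.poly →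
  ∀ (d : ℕ) (γ : Fin d → Loop), (∀ l, (γ l).On C) → Ind C γ →
  ∀ D₀ : Finset ℂ, (∀ c ∈ D₀, c ∈ k ∧ (∀ y, C.F c y = 0 → C.Fy c y ≠ 0) ∧ ∀ l t, (γ l).x t ≠ c) →
  ∃ M D : Finset ℂ, D₀ ⊆ D ∧
    (∀ m ∈ M, m ∈ k ∧ (∀ x, C.F x m = 0 → C.Fx x m ≠ 0) ∧ ∀ l t, (γ l).y t ≠ m) ∧
    (∀ c ∈ D, c ∈ k ∧ (∀ y, C.F c y = 0 → C.Fy c y ≠ 0) ∧ ∀ l t, (γ l).x t ≠ c) ∧
    (∀ m ∈ M, ∀ c ∈ D, C.F c m ≠ 0) ∧
    {s : ℂ × ℂ | C.F s.1 s.2 = 0 ∧ (s.1 ∈ D ∨ s.2 ∈ M)}.Finite ∧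
    ∀ (r : Fin d → ℝ) (res : ℂ × ℂ → ℝ),
      (∑ᶠ s ∈ {s : ℂ × ℂ | C.F s.1 s.2 = 0 ∧ (s.1 ∈ D ∨ s.2 ∈ M)}, res s) = 0 →
      ∃ μ : ℂ → ℂ → ℝ, (∑ m ∈ M, ∑ c ∈ D, μ m c) = 0 ∧
        (∀ c ∈ D, ∀ y, C.F c y = 0 → ∑ m ∈ M, μ m c * Real.log ‖y - m‖ = res (c, y)) ∧
        (∀ m ∈ M, ∀ x, C.F x m = 0 → - ∑ c ∈ D, μ m c * Real.log ‖x - c‖ = res (x, m)) ∧
        ∀ l, ∑ m ∈ M, ∑ c ∈ D, μ m c * (γ l).reg m c = r l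

end Pool.Agent.N65.GP
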