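import Pool.Agent.N65.GP.Defs2
import Pool.Agent.N65.GP.Main
set_option autoImplicit false

/-!
# Project GP: the main statement for open curves
-/

namespace Pool.Agent.N65.GP

open Complex

/-- a vector is in the range of a linear map if all functionals which vanish on the range vanish on it -/
theorem duality {V P : Type} [AddCommGroup V] [Module ℝ V] [Fintype P] [DecidableEq P]
    (Φ : V →ₗ[ℝ] (P → ℝ)) (w : P → ℝ)
    (h : ∀ ψ : P → ℝ, (∀ v, ∑ p, ψ p * Φ v p = 0) → ∑ p, ψ p * w p = 0) : ∃ v, Φ v = w := by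
  by_contra hne
  have hw : w ∉ LinearMap.range Φ := fun ⟨v, hv⟩ => hne ⟨v, hv⟩
  obtain ⟨f, hf, hf2⟩ := Submodule.exists_dual_map_eq_bot_of_notMem hw inferInstance
  apply hf
  have hf3 : ∀ u : P → ℝ, f u = ∑ p, f (Pi.single p 1) * u p := by
    intro u
    rw [LinearMap.pi_apply_eq_sum_univ f u]
    refine Finset.sum_congr rfl fun p _ => ?_
    rw [smul_eq_mul, mul_comm]
    congr 2
    ext q
    simp only [Pi.single_apply, eq_comm]
  rw [hf3 w]
  apply h
  intro v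
  rw [← hf3]
  have : f (Φ v) ∈ (LinearMap.range Φ).map f := ⟨Φ v, ⟨v, rfl⟩, rfl⟩
  rw [hf2] at this
  simpa using this

section

variable (d n : ℕ) (M D : Finset ℂ) (reg : Fin d → ℂ → ℂ → ℝ) (A B : ℂ → ℂ → Fin n → ℝ)

/-- regulators and residues of a combination of symbols -/
noncomputable def phi : (ℂ → ℂ → ℝ) →ₗ[ℝ] (Fin d ⊕ ((D × Fin n) ⊕ ((M × Fin n) ⊕ Unit)) → ℝ) :=
  LinearMap.pi fun p => match p with
    | Sum.inl l => ∑ m ∈ M, ∑ c ∈ D, reg l m c •
        ((LinearMap.proj c : (ℂ → ℝ) →ₗ[ℝ] ℝ) ∘ₗ (LinearMap.proj m : (ℂ → ℂ → ℝ) →ₗ[ℝ] (ℂ → ℝ)))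
    | Sum.inr (Sum.inl q) => ∑ m ∈ M, A m q.1 q.2 •
        ((LinearMap.proj (q.1 : ℂ) : (ℂ → ℝ) →ₗ[ℝ] ℝ) ∘ₗ (LinearMap.proj m : (ℂ → ℂ → ℝ) →ₗ[ℝ] (ℂ → ℝ)))
    | Sum.inr (Sum.inr (Sum.inl q)) => ∑ c ∈ D, B q.1 c q.2 •
        ((LinearMap.proj c : (ℂ → ℝ) →ₗ[ℝ] ℝ) ∘ₗ (LinearMap.proj (q.1 : ℂ) : (ℂ → ℂ → ℝ) →ₗ[ℝ] (ℂ → ℝ)))
    | Sum.inr (Sum.inr (Sum.inr _)) => ∑ m ∈ M, ∑ c ∈ D,
        ((LinearMap.proj c : (ℂ → ℝ) →ₗ[ℝ] ℝ) ∘ₗ (LinearMap.proj m : (ℂ → ℂ → ℝ) →ₗ[ℝ] (ℂ → ℝ)))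

theorem phi1 (μ : ℂ → ℂ → ℝ) (l : Fin d) :
    phi d n M D reg A B μ (Sum.inl l) = ∑ m ∈ M, ∑ c ∈ D, reg l m c * μ m c := by
  simp [phi]

theorem phi2 (μ : ℂ → ℂ → ℝ) (q : D × Fin n) :
    phi d n M D reg A B μ (Sum.inr (Sum.inl q)) = ∑ m ∈ M, A m q.1 q.2 * μ m q.1 := by
  simp [phi]

theorem phi3 (μ : ℂ → ℂ → ℝ) (q : M × Fin n) :
    phi d n M D reg A B μ (Sum.inr (Sum.inr (Sum.inl q))) = ∑ c ∈ D, B q.1 c q.2 * μ q.1 c := by
  simp [phi]

theorem phi4 (μ : ℂ → ℂ → ℝ) :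
    phi d n M D reg A B μ (Sum.inr (Sum.inr (Sum.inr ()))) = ∑ m ∈ M, ∑ c ∈ D, μ m c := by
  simp [phi]

/-- the linear algebra -/
theorem lad (r : Fin d → ℝ) (u v : ℂ → Fin n → ℝ)
    (h : ∀ (s : Fin d → ℝ) (lam lam' : ℂ → Fin n → ℝ) (τ : ℝ),
      (∀ m ∈ M, ∀ c ∈ D, ∑ l, s l * reg l m c =
        ∑ i, lam c i * A m c i + ∑ i, lam' m i * B m c i + τ) →
      ∑ l, s l * r l = ∑ c ∈ D, ∑ i, lam c i * u c i + ∑ m ∈ M, ∑ i, lam' m i * v m i) :
    ∃ μ : ℂ → ℂ → ℝ, (∑ m ∈ M, ∑ c ∈ D, μ m c) = 0 ∧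
      (∀ c ∈ D, ∀ i, ∑ m ∈ M, μ m c * A m c i = u c i) ∧
      (∀ m ∈ M, ∀ i, ∑ c ∈ D, μ m c * B m c i = v m i) ∧
      ∀ l, ∑ m ∈ M, ∑ c ∈ D, μ m c * reg l m c = r l := by
  classical
  obtain ⟨μ, hμ⟩ := duality (phi d n M D reg A B)
    (Sum.elim r (Sum.elim (fun q => u q.1 q.2) (Sum.elim (fun q => v q.1 q.2) fun _ => 0))) (by
    intro ψ hψ
    set lam : ℂ → Fin n → ℝ := fun c i =>
      if hc : c ∈ D then - ψ (Sum.inr (Sum.inl (⟨c, hc⟩, i))) else 0 with hlam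
    set lam' : ℂ → Fin n → ℝ := fun m i =>
      if hm : m ∈ M then - ψ (Sum.inr (Sum.inr (Sum.inl (⟨m, hm⟩, i)))) else 0 with hlam'
    have h1 := h (fun l => ψ (Sum.inl l)) lam lam' (- ψ (Sum.inr (Sum.inr (Sum.inr ())))) (by
      intro m hm c hc
      have h2 := hψ (fun m' c' => if m' = m ∧ c' = c then 1 else 0)
      rw [Fintype.sum_sum_type, Fintype.sum_sum_type, Fintype.sum_sum_type] at h2
      simp only [phi1, phi2, phi3, Finset.univ_unique, Finset.sum_singleton, Fintype.sum_prod_type] at h2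
      rw [show (default : Unit) = () from rfl, phi4] at h2
      have h3 : ∀ l, ∑ m' ∈ M, ∑ c' ∈ D, reg l m' c' * (if m' = m ∧ c' = c then (1 : ℝ) else 0) =
          reg l m c := by
        intro l
        rw [Finset.sum_eq_single_of_mem m hm, Finset.sum_eq_single_of_mem c hc]
        · simp
        · intro c' _ hc'
          simp [hc']
        · intro m' _ hm'
          exact Finset.sum_eq_zero fun c' _ => by simp [hm']
      have h4 : ∑ m' ∈ M, ∑ c' ∈ D, (if m' = m ∧ c' = c then (1 : ℝ) else 0) = 1 := by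
        rw [Finset.sum_eq_single_of_mem m hm, Finset.sum_eq_single_of_mem c hc]
        · simp
        · intro c' _ hc'
          simp [hc']
        · intro m' _ hm'
          exact Finset.sum_eq_zero fun c' _ => by simp [hm']
      have h5 : ∑ q : D, ∑ i, ψ (Sum.inr (Sum.inl (q, i))) *
          ∑ m' ∈ M, A m' q i * (if m' = m ∧ (q : ℂ) = c then (1 : ℝ) else 0) =
          ∑ i, ψ (Sum.inr (Sum.inl (⟨c, hc⟩, i))) * A m c i := by
        rw [Finset.sum_eq_single_of_mem (⟨c, hc⟩ : D) (Finset.mem_univ _)]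
        · refine Finset.sum_congr rfl fun i _ => ?_
          rw [Finset.sum_eq_single_of_mem m hm]
          · simp
          · intro m' _ hm'
            simp [hm']
        · intro q _ hq
          refine Finset.sum_eq_zero fun i _ => ?_
          rw [Finset.sum_eq_zero, mul_zero]
          intro m' _
          have : (q : ℂ) ≠ c := fun h => hq (Subtype.ext h)
          simp [this]
      have h6 : ∑ q : M, ∑ i, ψ (Sum.inr (Sum.inr (Sum.inl (q, i)))) *
          ∑ c' ∈ D, B q c' i * (if (q : ℂ) = m ∧ c' = c then (1 : ℝ) else 0) =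
          ∑ i, ψ (Sum.inr (Sum.inr (Sum.inl (⟨m, hm⟩, i)))) * B m c i := by
        rw [Finset.sum_eq_single_of_mem (⟨m, hm⟩ : M) (Finset.mem_univ _)]
        · refine Finset.sum_congr rfl fun i _ => ?_
          rw [Finset.sum_eq_single_of_mem c hc]
          · simp
          · intro c' _ hc'
            simp [hc']
        · intro q _ hq
          refine Finset.sum_eq_zero fun i _ => ?_
          rw [Finset.sum_eq_zero, mul_zero]
          intro c' _
          have : (q : ℂ) ≠ m := fun h => hq (Subtype.ext h)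
          simp [this]
      simp only [h3, h4, mul_one] at h2
      rw [h5, h6] at h2
      have h7 : ∑ i, lam c i * A m c i = - ∑ i, ψ (Sum.inr (Sum.inl (⟨c, hc⟩, i))) * A m c i := by
        rw [← Finset.sum_neg_distrib]
        refine Finset.sum_congr rfl fun i _ => ?_
        rw [hlam]
        simp only [hc, dif_pos]
        ring
      have h8 : ∑ i, lam' m i * B m c i =
          - ∑ i, ψ (Sum.inr (Sum.inr (Sum.inl (⟨m, hm⟩, i)))) * B m c i := by
        rw [← Finset.sum_neg_distrib]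
        refine Finset.sum_congr rfl fun i _ => ?_
        rw [hlam']
        simp only [hm, dif_pos]
        ring
      rw [h7, h8]
      linarith)
    rw [Fintype.sum_sum_type, Fintype.sum_sum_type, Fintype.sum_sum_type]
    simp only [Sum.elim_inl, Sum.elim_inr, Finset.univ_unique, Finset.sum_singleton, mul_zero, add_zero,
      Fintype.sum_prod_type]
    rw [h1]
    have h9 : ∑ c ∈ D, ∑ i, lam c i * u c i = - ∑ q : D, ∑ i, ψ (Sum.inr (Sum.inl (q, i))) * u q i := by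
      rw [← Finset.sum_coe_sort, ← Finset.sum_neg_distrib]
      refine Finset.sum_congr rfl fun q _ => ?_
      rw [← Finset.sum_neg_distrib]
      refine Finset.sum_congr rfl fun i _ => ?_
      rw [hlam]
      simp only [q.2, dif_pos]
      ring
    have h10 : ∑ m ∈ M, ∑ i, lam' m i * v m i =
        - ∑ q : M, ∑ i, ψ (Sum.inr (Sum.inr (Sum.inl (q, i)))) * v q i := by
      rw [← Finset.sum_coe_sort, ← Finset.sum_neg_distrib]
      refine Finset.sum_congr rfl fun q _ => ?_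
      rw [← Finset.sum_neg_distrib]
      refine Finset.sum_congr rfl fun i _ => ?_
      rw [hlam']
      simp only [q.2, dif_pos]
      ring
    rw [h9, h10]
    ring)
  refine ⟨μ, ?_, ?_, ?_, ?_⟩
  · have := congrFun hμ (Sum.inr (Sum.inr (Sum.inr ())))
    rwa [phi4] at this
  · intro c hc i
    have := congrFun hμ (Sum.inr (Sum.inl (⟨c, hc⟩, i)))
    rw [phi2] at this
    simpa only [mul_comm, Sum.elim_inl, Sum.elim_inr] using this
  · intro m hm i
    have := congrFun hμ (Sum.inr (Sum.inr (Sum.inl (⟨m, hm⟩, i))))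
    rw [phi3] at this
    simpa only [mul_comm, Sum.elim_inl, Sum.elim_inr] using this
  · intro l
    have := congrFun hμ (Sum.inl l)
    rw [phi1] at this
    simpa only [mul_comm, Sum.elim_inl] using this

end

theorem main3 (hB : S_B) (hMO : S_MO) (hPF : S_PF) (hEC : S_EC) : Main3 := by
  classical
  intro k hk C hirr d γ hγ hind D₀ hD₀
  obtain ⟨R₀, hb₀⟩ := hB k C
  obtain ⟨R₁, hR₁⟩ := exists_bd γ
  obtain ⟨b⟩ := hMO k C R₀ (max R₀ R₁) (le_max_left _ _) hb₀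
  set R := max R₀ R₁ with hR
  have hBd : Bd γ R := fun l t =>
    ⟨(hR₁ l t).1.trans_le (le_max_right _ _), (hR₁ l t).2.trans_le (le_max_right _ _)⟩
  have hYex : ∀ c, ∃ Y : Fin C.n → ℂ, c ∈ D₀ → Function.Injective Y ∧
      ∀ y, C.F c y = 0 ↔ ∃ i, y = Y i := by
    intro c
    by_cases hc : c ∈ D₀
    · obtain ⟨Y, hY⟩ := (hPF k C).1 c (hD₀ c hc).2.1
      exact ⟨Y, fun _ => hY⟩
    · exact ⟨fun _ => 0, fun h => absurd h hc⟩
  choose Y hY using hYex
  obtain ⟨M, D₁, hM, hD₁, hMD₁, hMD₀, key⟩ := hEC k hk C R b hirr d γ hBd hind D₀ Y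
    (fun c hc => (hD₀ c hc).1) (fun c hc => hY c hc)
  set D := D₀ ∪ D₁ with hD
  set W : ℂ → Fin C.n → ℂ := fun c => if c ∈ D₀ then Y c else fun i => b.yb i c with hW
  have hW0 : ∀ c ∈ D₀, W c = Y c := fun c hc => by rw [hW]; exact if_pos hc
  have hW1 : ∀ c ∈ D₁, W c = fun i => b.yb i c := fun c hc => by rw [hW]; exact if_neg (hD₁ c hc).2.2
  have hWr : ∀ c ∈ D, Function.Injective (W c) ∧ ∀ y, C.F c y = 0 ↔ ∃ i, y = W c i := by
    intro c hc
    rcases Finset.mem_union.1 hc with h | h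
    · rw [hW0 c h]
      exact hY c h
    · rw [hW1 c h]
      exact ⟨b.injY c (hD₁ c h).2.1, fun y => b.rootY c (hD₁ c h).2.1 y⟩
  have hMD : ∀ m ∈ M, ∀ c ∈ D, C.F c m ≠ 0 := by
    intro m hm c hc
    rcases Finset.mem_union.1 hc with h | h
    · exact hMD₀ m hm c h
    · exact hMD₁ m hm c h
  set T₁ : Finset (ℂ × ℂ) := (D ×ˢ (Finset.univ : Finset (Fin C.n))).image
    (fun p : ℂ × Fin C.n => (p.1, W p.1 p.2)) with hT₁
  set T₂ : Finset (ℂ × ℂ) := (M ×ˢ (Finset.univ : Finset (Fin C.n))).image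
    (fun p : ℂ × Fin C.n => (b.xb p.2 p.1, p.1)) with hT₂
  have hmem1 : ∀ s : ℂ × ℂ, s ∈ T₁ ↔ (C.F s.1 s.2 = 0 ∧ s.1 ∈ D) := by
    intro s
    rw [hT₁, Finset.mem_image]
    constructor
    · rintro ⟨p, hp, rfl⟩
      have hp1 := (Finset.mem_product.1 hp).1
      exact ⟨((hWr _ hp1).2 _).2 ⟨p.2, rfl⟩, hp1⟩
    · rintro ⟨h1, h2⟩
      obtain ⟨i, hi⟩ := ((hWr _ h2).2 _).1 h1
      exact ⟨(s.1, i), Finset.mem_product.2 ⟨h2, Finset.mem_univ _⟩, by rw [← hi]⟩
  have hmem2 : ∀ s : ℂ × ℂ, s ∈ T₂ ↔ (C.F s.1 s.2 = 0 ∧ s.2 ∈ M) := by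
    intro s
    rw [hT₂, Finset.mem_image]
    constructor
    · rintro ⟨p, hp, rfl⟩
      have hp1 := (Finset.mem_product.1 hp).1
      exact ⟨(b.rootX _ (hM _ hp1).2 _).2 ⟨p.2, rfl⟩, hp1⟩
    · rintro ⟨h1, h2⟩
      obtain ⟨i, hi⟩ := (b.rootX _ (hM _ h2).2 _).1 h1
      exact ⟨(s.2, i), Finset.mem_product.2 ⟨h2, Finset.mem_univ _⟩, by rw [← hi]⟩
  have hS : {s : ℂ × ℂ | C.F s.1 s.2 = 0 ∧ (s.1 ∈ D ∨ s.2 ∈ M)} = ↑(T₁ ∪ T₂) := by
    ext s
    have h0 : s ∈ ((T₁ ∪ T₂ : Finset (ℂ × ℂ)) : Set (ℂ × ℂ)) ↔ (s ∈ T₁ ∨ s ∈ T₂) := by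
      rw [Finset.mem_coe]
      exact Finset.mem_union
    rw [h0, hmem1, hmem2]
    show (C.F s.1 s.2 = 0 ∧ (s.1 ∈ D ∨ s.2 ∈ M)) ↔ _
    constructor
    · rintro ⟨h1, h2 | h2⟩
      · exact Or.inl ⟨h1, h2⟩
      · exact Or.inr ⟨h1, h2⟩
    · rintro (⟨h1, h2⟩ | ⟨h1, h2⟩)
      · exact ⟨h1, Or.inl h2⟩
      · exact ⟨h1, Or.inr h2⟩
  have hdisj : Disjoint T₁ T₂ := by
    rw [Finset.disjoint_left]
    intro s h1 h2
    exact hMD _ ((hmem2 s).1 h2).2 _ ((hmem1 s).1 h1).2 ((hmem1 s).1 h1).1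
  refine ⟨M, D, Finset.subset_union_left, ?_, ?_, hMD, ?_, ?_⟩
  · intro m hm
    obtain ⟨hmk, hmR⟩ := hM m hm
    refine ⟨hmk, ?_, ?_⟩
    · intro x hx
      obtain ⟨j, hj⟩ := (b.rootX _ hmR x).1 hx
      rw [hj]
      exact b.Fx_ne j _ hmR
    · intro l t h
      have h1 := (hBd l t).2
      rw [h] at h1
      exact absurd hmR (not_lt.2 h1.le)
  · intro c hc
    rcases Finset.mem_union.1 hc with h | h
    · exact hD₀ c h
    · obtain ⟨hck, hcR, _⟩ := hD₁ c h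
      refine ⟨hck, ?_, ?_⟩
      · intro y hy
        obtain ⟨j, hj⟩ := (b.rootY _ hcR y).1 hy
        rw [hj]
        exact b.Fy_ne j _ hcR
      · intro l t h
        have h1 := (hBd l t).1
        rw [h] at h1
        exact absurd hcR (not_lt.2 h1.le)
  · rw [hS]
    exact Finset.finite_toSet _
  · intro r res hres
    have hsum : ∑ c ∈ D, ∑ i, res (c, W c i) + ∑ m ∈ M, ∑ i, res (b.xb i m, m) = 0 := by
      rw [hS, finsum_mem_coe_finset, Finset.sum_union hdisj, hT₁, hT₂, Finset.sum_image,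
        Finset.sum_image, Finset.sum_product, Finset.sum_product] at hres
      · exact hres
      · intro p hp q hq h
        simp only [Prod.mk.injEq] at h
        have hp1 := (Finset.mem_product.1 hp).1
        refine Prod.ext h.2 (b.injX _ (hM _ hp1).2 ?_)
        simp only
        rw [h.1, h.2]
      · intro p hp q hq h
        simp only [Prod.mk.injEq] at h
        have hp1 := (Finset.mem_product.1 hp).1
        refine Prod.ext h.1 ((hWr _ hp1).1 ?_)
        rw [h.2, h.1]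
    obtain ⟨μ, h1, h2, h3, h4⟩ := lad d C.n M D (fun l m c => (γ l).reg m c)
      (fun m c i => Real.log ‖W c i - m‖) (fun m c i => Real.log ‖b.xb i m - c‖) r
      (fun c i => res (c, W c i)) (fun m i => - res (b.xb i m, m)) (by
      intro s lam lam' τ hrel
      obtain ⟨hs, β, hβ1, hβ0, hβ'⟩ := key s lam lam' τ
        (by
          intro m hm c hc
          have := hrel m hm c (Finset.mem_union_right _ hc)
          rw [hW1 c hc] at this
          exact this)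
        (by
          intro m hm c hc
          have := hrel m hm c (Finset.mem_union_left _ hc)
          rw [hW0 c hc] at this
          exact this)
      have h5 : ∑ c ∈ D, ∑ i, lam c i * res (c, W c i) = β * ∑ c ∈ D, ∑ i, res (c, W c i) := by
        rw [Finset.mul_sum]
        refine Finset.sum_congr rfl fun c hc => ?_
        rw [Finset.mul_sum]
        refine Finset.sum_congr rfl fun i _ => ?_
        rcases Finset.mem_union.1 hc with h | h
        · rw [hβ0 c h]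
        · rw [hβ1 c h]
      have h6 : ∑ m ∈ M, ∑ i, lam' m i * (- res (b.xb i m, m)) =
          β * ∑ m ∈ M, ∑ i, res (b.xb i m, m) := by
        rw [Finset.mul_sum]
        refine Finset.sum_congr rfl fun m hm => ?_
        rw [Finset.mul_sum]
        refine Finset.sum_congr rfl fun i _ => ?_
        rw [hβ' m hm]
        ring
      rw [h5, h6, ← mul_add, hsum, mul_zero, hs]
      simp)
    refine ⟨μ, h1, ?_, ?_, h4⟩
    · intro c hc y hy
      obtain ⟨i, rfl⟩ := ((hWr c hc).2 y).1 hy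
      exact h2 c hc i
    · intro m hm x hx
      obtain ⟨i, rfl⟩ := (b.rootX _ (hM _ hm).2 _).1 hx
      rw [h3 m hm i, neg_neg]

end Pool.Agent.N65.GP
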